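import Pool.Agent.Q51.SE.Stm

/-!
# Project SE: job COVQ (helper251): values give points of coverings
-/

set_option autoImplicit false

namespace Pool.Agent.Q251.SE

open Polynomial Pool.Agent.Q51.SE

lemma core {F : Type} [Field F] (p A G D H : F[X]) (x w c : F) (hc : c ≠ 0) (q : ℕ) (hq : 0 < q)
    (hsep : p.Separable) (h1 : p ∣ (C x - C w * X) * (A - (C x - C w * X)))
    (h2 : p ∣ A - D * (C c * G ^ q * H)) :
    ∃ g1 : F[X], p ∣ C (x / c) - C (w / c) * X - D * g1 ^ q * H := by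
  classical
  set q0 : F[X] := C x - C w * X with hq0
  obtain ⟨p2, hp2⟩ : EuclideanDomain.gcd p q0 ∣ p := EuclideanDomain.gcd_dvd_left _ _
  set g1 := EuclideanDomain.gcd p q0 with hg1
  have hcop12 : IsCoprime g1 p2 := by
    apply Polynomial.Separable.isCoprime
    rw [← hp2]; exact hsep
  have hcopq : IsCoprime p2 q0 := by
    rw [← EuclideanDomain.gcd_isUnit_iff]
    have h1 : EuclideanDomain.gcd p2 q0 ∣ g1 := by
      apply EuclideanDomain.dvd_gcd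
      · rw [hp2]; exact Dvd.dvd.mul_left (EuclideanDomain.gcd_dvd_left _ _) _
      · exact EuclideanDomain.gcd_dvd_right _ _
    exact hcop12.isUnit_of_dvd' h1 (EuclideanDomain.gcd_dvd_left _ _)
  have hp2p : p2 ∣ p := ⟨g1, by rw [mul_comm]; exact hp2⟩
  have h3 : p2 ∣ A - q0 := hcopq.dvd_of_dvd_mul_left (hp2p.trans h1)
  have h4 : p2 ∣ A - D * (C c * G ^ q * H) := hp2p.trans h2
  have hcc : C c⁻¹ * C c = (1 : F[X]) := by rw [← C_mul, inv_mul_cancel₀ hc, C_1]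
  have he : C (x / c) - C (w / c) * X = C c⁻¹ * q0 := by
    rw [hq0, div_eq_inv_mul, div_eq_inv_mul, C_mul, C_mul]; ring
  obtain ⟨u, v, huv⟩ := hcop12
  refine ⟨G * (u * g1), ?_⟩
  rw [he, hp2]
  apply IsCoprime.mul_dvd ⟨u, v, huv⟩
  · apply dvd_sub (Dvd.dvd.mul_left (EuclideanDomain.gcd_dvd_right _ _) _)
    apply Dvd.dvd.mul_right
    apply Dvd.dvd.mul_left
    exact dvd_pow (Dvd.dvd.mul_left (Dvd.dvd.mul_left dvd_rfl _) _) hq.ne'
  · have h5 : p2 ∣ G ^ q - (G * (u * g1)) ^ q := by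
      refine dvd_trans ?_ (sub_dvd_pow_sub_pow G (G * (u * g1)) q)
      exact ⟨G * v, by linear_combination (-G) * huv⟩
    obtain ⟨r, hr⟩ := h3
    obtain ⟨s, hs⟩ := h4
    obtain ⟨t, ht⟩ := h5
    refine ⟨C c⁻¹ * (s - r) + D * H * t, ?_⟩
    linear_combination C c⁻¹ * hs - C c⁻¹ * hr + D * H * ht + D * H * G ^ q * hcc

theorem covq : S_COVQ := by
  classical
  intro f hf q m D hq p _ P a hval d c g u hu ha
  obtain ⟨h, h', hh, hh', h1⟩ : ∃ h h' : ℤ_[p][X],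
      (u : Alg f ℚ_[p]) = cl f ℚ_[p] (h.map (algebraMap ℤ_[p] ℚ_[p])) ∧
      ((u⁻¹ : (Alg f ℚ_[p])ˣ) : Alg f ℚ_[p]) = cl f ℚ_[p] (h'.map (algebraMap ℤ_[p] ℚ_[p])) ∧
      (u = 1 → h = 1) := by
    by_cases h : u = 1
    · subst h
      exact ⟨1, 1, by simp [cl], by simp [cl], fun _ => rfl⟩
    · obtain ⟨h1, h2, h3, h4⟩ := hu
      exact ⟨h1, h2, h3, h4, fun hc => absurd hc h⟩
  obtain ⟨A, hA⟩ := AdjoinRoot.mk_surjective (a : Alg f ℚ_[p])
  obtain ⟨G, hG⟩ := AdjoinRoot.mk_surjective (g : Alg f ℚ_[p])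
  have hsep : (f.map (Int.castRingHom ℚ_[p])).Separable := by
    have := hf.separable.map (f := algebraMap ℚ ℚ_[p])
    rw [Polynomial.map_map, Subsingleton.elim ((algebraMap ℚ ℚ_[p]).comp (Int.castRingHom ℚ))
      (Int.castRingHom ℚ_[p])] at this
    exact this
  have e1 : f.map (Int.castRingHom ℚ_[p]) ∣
      (C P.x - C P.w * X) * (A - (C P.x - C P.w * X)) := by
    rw [← AdjoinRoot.mk_eq_zero, map_mul, map_sub _ A, hA]
    exact hval.1
  have e2 : f.map (Int.castRingHom ℚ_[p]) ∣ A - d.map (Rat.castHom ℚ_[p]) *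
      (C (c : ℚ_[p]) * G ^ q * h.map (algebraMap ℤ_[p] ℚ_[p])) := by
    rw [← AdjoinRoot.mk_eq_zero, map_sub, hA, ha, map_mul, map_mul, map_mul, map_pow, hG]
    rw [Units.val_mul, Units.val_mul, Units.val_pow_eq_pow_val, hh]
    simp only [cl]
    rw [sub_eq_zero]
    rfl
  obtain ⟨g1, hg1⟩ := core _ A G _ _ P.x P.w (c : ℚ_[p]) c.ne_zero q hq hsep e1 e2
  refine ⟨P.x / c, P.w / c, g1, h, h', ?_, hg1, ?_, h1⟩
  · rcases P.ne with hx | hx
    · exact Or.inl (div_ne_zero hx c.ne_zero)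
    · exact Or.inr (div_ne_zero hx c.ne_zero)
  · rw [← AdjoinRoot.mk_eq_zero, map_sub, Polynomial.map_mul, map_mul, map_one]
    have e3 : (u : Alg f ℚ_[p]) * ((u⁻¹ : (Alg f ℚ_[p])ˣ) : Alg f ℚ_[p]) = 1 := u.mul_inv
    rw [hh, hh'] at e3
    simp only [cl] at e3
    rw [e3, sub_self]

end Pool.Agent.Q251.SE
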